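import Pool.Agent.helper84.NR.SpecW

set_option autoImplicit false

namespace Pool.Agent.helper84.NR

open scoped Classical
open Finset

/-- Elements with a single pair in their row belong to `X`. -/
lemma BIP_one {F : Type} (P X : Finset (F × F)) (g : F × F → F) (hX : X ⊆ P)
    (h : ∀ A, min 2 (P.filter (fun p => g p = A)).card ≤ (X.filter (fun p => g p = A)).card)
    (p : F × F) (hp : p ∈ P) (h1 : ¬ 2 ≤ (P.filter (fun q => g q = g p)).card) : p ∈ X := by
  have hpos : 0 < (P.filter (fun q => g q = g p)).card :=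
    card_pos.mpr ⟨p, mem_filter.mpr ⟨hp, rfl⟩⟩
  have h2 := h (g p)
  have h3 : 0 < (X.filter (fun q => g q = g p)).card := by omega
  obtain ⟨q, hq⟩ := card_pos.mp h3
  rw [mem_filter] at hq
  have h4 : (P.filter (fun q => g q = g p)).card ≤ 1 := by omega
  have h5 : q = p := card_le_one.mp h4 q (mem_filter.mpr ⟨hX hq.1, hq.2⟩) p
    (mem_filter.mpr ⟨hp, rfl⟩)
  rw [← h5]
  exact hq.1

/-- Twice the number of big rows is at most the number of pairs of `X` in big rows. -/
lemma BIP_two {F : Type} (P X : Finset (F × F)) (g : F × F → F) (hX : X ⊆ P)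
    (h : ∀ A, min 2 (P.filter (fun p => g p = A)).card ≤ (X.filter (fun p => g p = A)).card) :
    2 * ((P.image g).filter (fun A => 2 ≤ (P.filter (fun p => g p = A)).card)).card ≤
      (X.filter (fun p => 2 ≤ (P.filter (fun q => g q = g p)).card)).card := by
  set A2 := (P.image g).filter (fun A => 2 ≤ (P.filter (fun p => g p = A)).card) with hA2
  set X' := X.filter (fun p => 2 ≤ (P.filter (fun q => g q = g p)).card) with hX'
  have hmap : ∀ p ∈ X', g p ∈ A2 := by
    intro p hp
    rw [hX', mem_filter] at hp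
    rw [hA2, mem_filter]
    exact ⟨mem_image.mpr ⟨p, hX hp.1, rfl⟩, hp.2⟩
  rw [card_eq_sum_card_fiberwise hmap]
  have h1 : ∀ A ∈ A2, 2 ≤ (X'.filter (fun p => g p = A)).card := by
    intro A hA
    rw [hA2, mem_filter] at hA
    have h2 := h A
    have h3 : (X.filter (fun p => g p = A)) ⊆ (X'.filter (fun p => g p = A)) := by
      intro p hp
      rw [mem_filter] at hp
      rw [mem_filter, hX', mem_filter]
      refine ⟨⟨hp.1, ?_⟩, hp.2⟩
      rw [hp.2]
      exact hA.2
    have h4 := card_le_card h3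
    have h5 := hA.2
    omega
  have h6 := card_nsmul_le_sum A2 _ 2 h1
  rw [smul_eq_mul] at h6
  omega

theorem BIP : BIP_stmt := by
  intro F P X Y hX hY hXY hne hA hB
  set dA : F → ℕ := fun A => (P.filter (fun p => p.1 = A)).card with hdA
  set dB : F → ℕ := fun B => (P.filter (fun p => p.2 = B)).card with hdB
  set A2 := (P.image Prod.fst).filter (fun A => 2 ≤ dA A) with hA2
  set B2 := (P.image Prod.snd).filter (fun B => 2 ≤ dB B) with hB2
  set A1 := (P.image Prod.fst).filter (fun A => ¬ 2 ≤ dA A) with hA1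
  set B1 := (P.image Prod.snd).filter (fun B => ¬ 2 ≤ dB B) with hB1
  have hAs : A2.card + A1.card = (P.image Prod.fst).card := card_filter_add_card_filter_not _
  have hBs : B2.card + B1.card = (P.image Prod.snd).card := card_filter_add_card_filter_not _
  have hpX : ∀ p ∈ P, ¬ 2 ≤ dA p.1 → p ∈ X := fun p hp h => BIP_one P X Prod.fst hX hA p hp h
  have hpY : ∀ p ∈ P, ¬ 2 ≤ dB p.2 → p ∈ Y := fun p hp h => BIP_one P Y Prod.snd hY hB p hp h
  have hnot : ∀ p, p ∈ X → p ∈ Y → False := fun p h1 h2 => disjoint_left.mp hXY h1 h2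
  set P1 := P.filter (fun p => ¬ 2 ≤ dA p.1) with hP1
  set P2 := P.filter (fun p => ¬ 2 ≤ dB p.2) with hP2
  set P3 := P.filter (fun p => 2 ≤ dA p.1 ∧ 2 ≤ dB p.2) with hP3
  have hd12 : Disjoint P1 P2 := by
    rw [disjoint_left]
    intro p h1 h2
    rw [hP1, mem_filter] at h1
    rw [hP2, mem_filter] at h2
    exact hnot p (hpX p h1.1 h1.2) (hpY p h2.1 h2.2)
  have hd3 : Disjoint (P1 ∪ P2) P3 := by
    rw [disjoint_left]
    intro p h1 h2
    rw [mem_union, hP1, hP2, mem_filter, mem_filter] at h1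
    rw [hP3, mem_filter] at h2
    rcases h1 with h1 | h1
    · exact h1.2 h2.2.1
    · exact h1.2 h2.2.2
  have hcard : P1.card + P2.card + P3.card ≤ P.card := by
    rw [← card_union_of_disjoint hd12, ← card_union_of_disjoint hd3]
    refine card_le_card (union_subset (union_subset ?_ ?_) ?_)
    · exact filter_subset _ _
    · exact filter_subset _ _
    · exact filter_subset _ _
  have hc1 : A1.card ≤ P1.card := by
    have h1 : A1 ⊆ P1.image Prod.fst := by
      intro A h
      rw [hA1, mem_filter, mem_image] at h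
      obtain ⟨⟨p, hp, rfl⟩, h2⟩ := h
      exact mem_image.mpr ⟨p, mem_filter.mpr ⟨hp, h2⟩, rfl⟩
    exact (card_le_card h1).trans card_image_le
  have hc2 : B1.card ≤ P2.card := by
    have h1 : B1 ⊆ P2.image Prod.snd := by
      intro A h
      rw [hB1, mem_filter, mem_image] at h
      obtain ⟨⟨p, hp, rfl⟩, h2⟩ := h
      exact mem_image.mpr ⟨p, mem_filter.mpr ⟨hp, h2⟩, rfl⟩
    exact (card_le_card h1).trans card_image_le
  set X' := X.filter (fun p => 2 ≤ dA p.1) with hX'
  set Y' := Y.filter (fun p => 2 ≤ dB p.2) with hY'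
  have hXc : 2 * A2.card ≤ X'.card := BIP_two P X Prod.fst hX hA
  have hYc : 2 * B2.card ≤ Y'.card := BIP_two P Y Prod.snd hY hB
  have hX3 : X' ⊆ P3 := by
    intro p hp
    rw [hX', mem_filter] at hp
    rw [hP3, mem_filter]
    refine ⟨hX hp.1, hp.2, ?_⟩
    by_contra h
    exact hnot p hp.1 (hpY p (hX hp.1) h)
  have hY3 : Y' ⊆ P3 := by
    intro p hp
    rw [hY', mem_filter] at hp
    rw [hP3, mem_filter]
    refine ⟨hY hp.1, ?_, hp.2⟩
    by_contra h
    exact hnot p (hpX p (hY hp.1) h) hp.1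
  have hdXY : Disjoint X' Y' := by
    rw [disjoint_left]
    intro p h1 h2
    rw [hX', mem_filter] at h1
    rw [hY', mem_filter] at h2
    exact hnot p h1.1 h2.1
  have hN : X'.card + Y'.card ≤ P3.card := by
    rw [← card_union_of_disjoint hdXY]
    exact card_le_card (union_subset hX3 hY3)
  have hab : P3.card ≤ A2.card * B2.card := by
    rw [← card_product]
    refine card_le_card ?_
    intro p hp
    rw [hP3, mem_filter] at hp
    rw [mem_product, hA2, hB2, mem_filter, mem_filter]
    exact ⟨⟨mem_image.mpr ⟨p, hp.1, rfl⟩, hp.2.1⟩, ⟨mem_image.mpr ⟨p, hp.1, rfl⟩, hp.2.2⟩⟩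
  have hpos : 0 < A2.card ∨ 0 < B2.card := by
    obtain ⟨p, hp⟩ := hne
    by_cases h1 : 2 ≤ dA p.1
    · left
      exact card_pos.mpr ⟨p.1, mem_filter.mpr ⟨mem_image.mpr ⟨p, hp, rfl⟩, h1⟩⟩
    · right
      have h2 : 2 ≤ dB p.2 := by
        by_contra h
        exact hnot p (hpX p hp h1) (hpY p hp h)
      exact card_pos.mpr ⟨p.2, mem_filter.mpr ⟨mem_image.mpr ⟨p, hp, rfl⟩, h2⟩⟩
  rw [← hAs, ← hBs]
  generalize A2.card = a at *
  generalize B2.card = b at *
  have h8 : 2 * a + 2 * b ≤ a * b := by omega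
  have h9 : 8 ≤ a + b := by
    have ha : 3 ≤ a := by
      by_contra h
      have h' : a ≤ 2 := by omega
      have h3 : a * b ≤ 2 * b := Nat.mul_le_mul_right b h'
      have h4 : a = 0 := by omega
      subst h4
      omega
    have hb : 3 ≤ b := by
      by_contra h
      have h' : b ≤ 2 := by omega
      have h3 : a * b ≤ a * 2 := Nat.mul_le_mul_left a h'
      have h4 : b = 0 := by omega
      subst h4
      omega
    by_contra h
    have h5 : a + b ≤ 7 := by omega
    have h6 : a ≤ 4 := by omega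
    have h7 : b ≤ 4 := by omega
    interval_cases a <;> interval_cases b <;> omega
  omega

end Pool.Agent.helper84.NR
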